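import Pool.Agent.H85.SC.Targets

/-! # sc_modules: KLM (helper4) -/

open Filter Topology

namespace Pool.Agent.H4.SC

open Pool.Agent.H87.Synth Pool.Agent.H85.SC

theorem klm (hAPM : T_APM) (hMUL : T_MUL) : T_KLM := by
  intro n f ε hε
  obtain ⟨-, hK, -, -, -⟩ := hAPM
  obtain ⟨-, -, -, -, -, -, -, -, hbd, huniq⟩ := hMUL
  obtain ⟨p, hp, hfp⟩ := dense_span_ex f (ε / 2) (by positivity)
  have hfin := finite_coeff_of_span hp
  -- a bound for the frequencies of `p`
  obtain ⟨A, hA⟩ : ∃ A : ℕ, ∀ z, coeff p z ≠ 0 → (z - cc n).natAbs < A := by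
    obtain ⟨B, hB⟩ := (hfin.image fun z => (z - cc n).natAbs).bddAbove
    refine ⟨B + 1, fun z hz => ?_⟩
    have h0 : (z - cc n).natAbs ≤ B := hB ⟨z, hz, rfl⟩
    omega
  refine ⟨A, fun a ha x hx => ?_⟩
  have hpow : A ≤ 4 ^ a := ha.trans (Nat.lt_pow_self (by norm_num)).le
  -- the difference is the image of `f - p` minus its coefficient
  have hzero : ∀ z, z ≠ cc n → coeff p z ≠ 0 → ind (inK n a) z = 0 := by
    intro z hz hp0
    unfold ind inK
    rw [if_neg]
    intro hdvd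
    have h1 := hA z hp0
    have h2 : (4 : ℤ) ^ a ∣ z - cc n := hdvd
    have h3 : ((4 : ℤ) ^ a).natAbs ∣ (z - cc n).natAbs := Int.natAbs_dvd_natAbs.2 h2
    rw [Int.natAbs_pow] at h3
    have h4 : (z - cc n).natAbs ≠ 0 := by
      rw [Int.natAbs_ne_zero]; exact sub_ne_zero.2 hz
    have h5 := Nat.le_of_dvd (Nat.pos_of_ne_zero h4) h3
    have h6 : (4 : ℤ).natAbs = 4 := rfl
    rw [h6] at h5
    omega
  have hone : ind (inK n a) (cc n) = 1 := by
    unfold ind inK
    rw [if_pos]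
    simp
  let y : L1 := x - coeff p (cc n) • ex (cc n)
  have hy : Act (ind (inK n a)) (f - p) y := by
    intro z
    simp only [y]
    rw [coeff_sub, coeff_sub, coeff_smul, coeff_ex, hx z]
    by_cases hz : cc n = z
    · rw [if_pos hz, ← hz, hone]; ring
    · rw [if_neg hz]
      by_cases hp0 : coeff p z = 0
      · rw [hp0]; ring
      · rw [hzero z (Ne.symm hz) hp0]; ring
  have h1 : ‖y‖ ≤ 1 * ‖f - p‖ := hbd _ _ (hK n a) _ _ hy
  have h2 : x - coeff f (cc n) • ex (cc n) = y - coeff (f - p) (cc n) • ex (cc n) := by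
    simp only [y]
    rw [coeff_sub, sub_smul]
    abel
  rw [h2]
  have h3 : ‖coeff (f - p) (cc n) • ex (cc n)‖ ≤ ‖f - p‖ := by
    rw [norm_smul, norm_ex, mul_one]
    exact norm_coeff_le _ _
  calc ‖y - coeff (f - p) (cc n) • ex (cc n)‖ ≤ ‖y‖ + ‖coeff (f - p) (cc n) • ex (cc n)‖ :=
        norm_sub_le _ _
    _ < ε := by linarith

end Pool.Agent.H4.SC
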