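import Pool.Agent.H85.SC.Targets

/-! # sc_modules: MUL, LIM (helper4) -/

open Filter Topology

namespace Pool.Agent.H4.SC

open Pool.Agent.H87.Synth Pool.Agent.H85.SC

lemma mulB_nonneg {M : ℤ → ℂ} {C : ℝ} (h : MulB M C) : 0 ≤ C := by
  obtain ⟨T, -, hT⟩ := h
  have := hT (ex 0)
  rw [norm_ex, mul_one] at this
  exact (norm_nonneg _).trans this

theorem mul : T_MUL := by
  have huniq : ∀ (M : ℤ → ℂ) (f x y : L1), Act M f x → Act M f y → x = y := by
    intro M f x y hx hy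
    exact ext_coeff fun n => by rw [hx n, hy n]
  refine ⟨fun M C h => mulB_nonneg h, ?_, ?_, ?_, ?_, ?_, ?_, ?_, ?_, huniq⟩
  · rintro M C C' ⟨T, h1, h2⟩ hC
    exact ⟨T, h1, fun f => (h2 f).trans (mul_le_mul_of_nonneg_right hC (norm_nonneg _))⟩
  · rintro M M' C C' ⟨T, h1, h2⟩ ⟨T', h1', h2'⟩
    refine ⟨T + T', fun f z => ?_, fun f => ?_⟩
    · rw [ContinuousLinearMap.add_apply, coeff_add, h1, h1']; ring
    · rw [ContinuousLinearMap.add_apply, add_mul]
      exact (norm_add_le _ _).trans (add_le_add (h2 f) (h2' f))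
  · rintro M M' C C' ⟨T, h1, h2⟩ ⟨T', h1', h2'⟩
    refine ⟨T - T', fun f z => ?_, fun f => ?_⟩
    · rw [ContinuousLinearMap.sub_apply, coeff_sub, h1, h1']; ring
    · rw [ContinuousLinearMap.sub_apply, add_mul]
      exact (norm_sub_le _ _).trans (add_le_add (h2 f) (h2' f))
  · rintro M M' C C' h h'
    have hC := mulB_nonneg h
    obtain ⟨T, h1, h2⟩ := h
    obtain ⟨T', h1', h2'⟩ := h'
    refine ⟨T.comp T', fun f z => ?_, fun f => ?_⟩
    · rw [ContinuousLinearMap.comp_apply, h1, h1']; ring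
    · rw [ContinuousLinearMap.comp_apply, mul_assoc]
      exact (h2 _).trans (mul_le_mul_of_nonneg_left (h2' f) hC)
  · rintro M C c ⟨T, h1, h2⟩
    refine ⟨c • T, fun f z => ?_, fun f => ?_⟩
    · rw [ContinuousLinearMap.smul_apply, coeff_smul, h1]; ring
    · rw [ContinuousLinearMap.smul_apply, norm_smul, mul_assoc]
      exact mul_le_mul_of_nonneg_left (h2 f) (norm_nonneg _)
  · intro c
    refine ⟨c • ContinuousLinearMap.id ℂ L1, fun f z => ?_, fun f => ?_⟩
    · rw [ContinuousLinearMap.smul_apply, coeff_smul]; rfl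
    · rw [ContinuousLinearMap.smul_apply, norm_smul]; rfl
  · rintro M C ⟨T, h1, h2⟩ f
    exact ⟨T f, fun z => h1 f z, h2 f⟩
  · rintro M C ⟨T, h1, h2⟩ f x hx
    rw [huniq M f x (T f) hx fun z => h1 f z]
    exact h2 f

theorem lim : T_LIM := by
  intro Φ K hΦ
  have hK : ∀ g : L1, 0 ≤ K * ‖g‖ := fun g => (norm_nonneg _).trans (hΦ 0 g)
  let U : Filter ℕ := (hyperfilter ℕ : Filter ℕ)
  have hex : ∀ g : L1, ∃ x : ℂ, Tendsto (fun M => Φ M g) U (𝓝 x) := by
    intro g
    have hc : IsCompact (Metric.closedBall (0 : ℂ) (K * ‖g‖)) := isCompact_closedBall _ _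
    obtain ⟨x, -, hx⟩ := hc.ultrafilter_le_nhds ((hyperfilter ℕ).map fun M => Φ M g) (by
      rw [le_principal_iff]
      exact Filter.mem_map.2 (Filter.univ_mem' fun M => by
        simpa [Metric.mem_closedBall] using hΦ M g))
    exact ⟨x, hx⟩
  choose Ψ hΨ using hex
  have hadd : ∀ f g, Ψ (f + g) = Ψ f + Ψ g := by
    intro f g
    refine tendsto_nhds_unique (hΨ (f + g)) ?_
    simpa only [map_add] using (hΨ f).add (hΨ g)
  have hsmul : ∀ (c : ℂ) f, Ψ (c • f) = c • Ψ f := by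
    intro c f
    refine tendsto_nhds_unique (hΨ (c • f)) ?_
    simpa only [map_smul] using (hΨ f).const_smul c
  refine ⟨LinearMap.mkContinuous
    { toFun := Ψ, map_add' := hadd, map_smul' := hsmul } K (fun g => ?_), fun g c hc => ?_⟩
  · exact le_of_tendsto (hΨ g).norm (Filter.Eventually.of_forall fun M => hΦ M g)
  · obtain ⟨M₀, hM₀⟩ := hc
    change Ψ g = c
    refine tendsto_nhds_unique (hΨ g) (tendsto_const_nhds.congr' ?_)
    have h1 : ∀ᶠ M in atTop, Φ M g = c := eventually_atTop.2 ⟨M₀, hM₀⟩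
    have h2 : U ≤ atTop := Nat.hyperfilter_le_atTop
    have h3 : ∀ᶠ M in U, Φ M g = c := h2 h1
    exact h3.mono fun M hM => hM.symm

end Pool.Agent.H4.SC
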