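import Pool.Agent.H85.SC.Targets

/-! # sc_modules: RED (helper4) -/

open Filter Topology

namespace Pool.Agent.H4.SC

open Pool.Agent.H85.SC Pool.Agent.H72

theorem red : T_RED := by
  intro A hA
  rw [MeasureTheory.AnalyticSet] at hA
  rcases hA with h | ⟨φ, hφ, hφr⟩
  · refine ⟨fun _ _ => false, continuous_const, fun x => ?_⟩
    rw [h]
    simp [IllF]
  · classical
    let F : (ℕ → ℕ) → List ℕ → Bool := fun x s =>
      decide (∃ y : ℕ → ℕ, seg y s.length = s ∧ seg (φ y) s.length = seg x s.length)
    refine ⟨F, ?_, fun x => ?_⟩
    · refine continuous_pi fun s => ?_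
      have h2 : IsLocallyConstant fun x : ℕ → ℕ => F x s := by
        rw [IsLocallyConstant.iff_exists_open]
        intro x
        refine ⟨⋂ i ∈ Finset.range s.length, (fun y : ℕ → ℕ => y i) ⁻¹' {x i}, ?_, ?_, ?_⟩
        · refine isOpen_biInter_finset fun i _ => ?_
          exact (isOpen_discrete ({x i} : Set ℕ)).preimage (continuous_apply i)
        · simp
        · intro y hy
          have h3 : seg y s.length = seg x s.length := by
            rw [seg_eq_iff]
            intro i hi
            simp only [Set.mem_iInter, Finset.mem_range, Set.mem_preimage,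
              Set.mem_singleton_iff] at hy
            exact hy i hi
          simp only [F, h3]
      exact h2.continuous
    · constructor
      · intro hx
        rw [← hφr] at hx
        obtain ⟨y, rfl⟩ := hx
        refine ⟨y, fun n => ?_⟩
        simp only [F, decide_eq_true_eq, seg_length]
        exact ⟨y, rfl, rfl⟩
      · rintro ⟨β, hβ⟩
        rw [← hφr]
        refine ⟨β, ?_⟩
        have hβ' : ∀ n, ∃ y : ℕ → ℕ, seg y n = seg β n ∧ seg (φ y) n = seg x n := by
          intro n
          have := hβ n
          simpa only [F, decide_eq_true_eq, seg_length] using this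
        choose y hy1 hy2 using hβ'
        have hyβ : Tendsto y atTop (𝓝 β) := by
          rw [tendsto_pi_nhds]
          intro i
          apply tendsto_const_nhds.congr'
          filter_upwards [eventually_gt_atTop i] with n hn
          exact ((seg_eq_iff _ _ _).1 (hy1 n) i hn).symm
        have h1 : Tendsto (fun n => φ (y n)) atTop (𝓝 (φ β)) := (hφ.tendsto β).comp hyβ
        have h2 : Tendsto (fun n => φ (y n)) atTop (𝓝 x) := by
          rw [tendsto_pi_nhds]
          intro i
          apply tendsto_const_nhds.congr'
          filter_upwards [eventually_gt_atTop i] with n hn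
          exact ((seg_eq_iff _ _ _).1 (hy2 n) i hn).symm
        exact tendsto_nhds_unique h1 h2

end Pool.Agent.H4.SC
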